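import Mathlib
import Pool.Agent.Q91.AssouadEx2

/-!
# A Lipschitz quasiconformal map of the plane which raises the Assouad dimension of a set
-/

open Set Filter Topology MeasureTheory
open scoped ENNReal NNReal ContDiff

namespace Pool.Agent.Results.MP_c78a2a_an.AssouadRaised

/-- `N_r(A)`: the least number of sets of diameter at most `r` needed to cover `A`. -/
noncomputable def coverNum (r : ℝ) (A : Set ℂ) : ℕ∞ :=
  ⨅ (T : Set (Set ℂ)) (_ : (∀ U ∈ T, Metric.ediam U ≤ ENNReal.ofReal r) ∧ A ⊆ ⋃₀ T), T.encard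

/-- The Assouad dimension of a subset of the plane: the infimum of the `α ≥ 0` for which there is
`C > 0` with `N_r(B(x, R) ∩ E) ≤ C (R / r)^α` for all `x ∈ E` and `0 < r < R`. -/
noncomputable def assouadDim (E : Set ℂ) : ℝ≥0∞ :=
  ⨅ (α : ℝ≥0) (_ : ∃ C : ℝ, 0 < C ∧ ∀ x ∈ E, ∀ r R : ℝ, 0 < r → r < R →
    ((coverNum r (Metric.ball x R ∩ E) : ℕ∞) : ℝ≥0∞) ≤ ENNReal.ofReal (C * (R / r) ^ (α : ℝ))),
      (α : ℝ≥0∞)

/-- `D` is a weak differential of `f` (the plane is identified with `ℂ`, and `D z` is a real linear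
map for each `z`). -/
def IsWeakDiff (f : ℂ → ℂ) (D : ℂ → ℂ →L[ℝ] ℂ) : Prop :=
  ∀ φ : ℂ → ℝ, ContDiff ℝ ∞ φ → HasCompactSupport φ → ∀ v : ℂ,
    ∫ z, (fderiv ℝ φ z v) • f z = - ∫ z, φ z • D z v

/-- Quasiconformal maps of the plane (analytic definition): homeomorphisms `f` of the plane in
`W^{1,2}_loc` with `|Df|^2 ≤ K J_f` almost everywhere, for some `K ≥ 1`; here `|Df|` is the operator
norm and `J_f` the determinant of the weak differential `Df`. -/
def IsQuasiconformal (f : ℂ → ℂ) : Prop :=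
  IsHomeomorph f ∧ (∀ A : Set ℂ, IsCompact A → MemLp f 2 (volume.restrict A)) ∧
    ∃ D : ℂ → ℂ →L[ℝ] ℂ, IsWeakDiff f D ∧
      (∀ A : Set ℂ, IsCompact A → MemLp D 2 (volume.restrict A)) ∧
      ∃ K : ℝ, 1 ≤ K ∧ ∀ᵐ z : ℂ, ‖D z‖ ^ 2 ≤ K * (D z).det

lemma isWeakDiff_of_lipschitz {f : ℂ → ℂ} {C : ℝ≥0} (hf : LipschitzWith C f) :
    IsWeakDiff f (fderiv ℝ f) := by
  intro φ hφ hc v
  obtain ⟨C', hC'⟩ : ∃ C', LipschitzWith C' φ := hφ.lipschitzWith_of_hasCompactSupport hc (by simp)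
  have hcont : Continuous φ := hφ.continuous
  have hdc : Continuous fun z => fderiv ℝ φ z v :=
    (hφ.continuous_fderiv (by simp)).clm_apply continuous_const
  have hdcs : HasCompactSupport fun z => fderiv ℝ φ z v := by
    have h1 := hc.fderiv (𝕜 := ℝ)
    exact h1.comp_left (g := fun L : ℂ →L[ℝ] ℝ => L v) (by simp)
  have int1 : Integrable fun z => (fderiv ℝ φ z v) • f z :=
    (hdc.smul hf.continuous).integrable_of_hasCompactSupport hdcs.smul_right
  have int0 : Integrable φ := hcont.integrable_of_hasCompactSupport hc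
  have hmeas : Measurable fun z => fderiv ℝ f z v := measurable_fderiv_apply_const ℝ f v
  have int2 : Integrable fun z => φ z • fderiv ℝ f z v := by
    refine (int0.norm.mul_const ((C : ℝ) * ‖v‖)).mono'
      (hcont.aestronglyMeasurable.smul hmeas.aestronglyMeasurable)
      (Eventually.of_forall fun z => ?_)
    rw [norm_smul]
    apply mul_le_mul_of_nonneg_left _ (norm_nonneg _)
    refine (ContinuousLinearMap.le_opNorm _ _).trans ?_
    exact mul_le_mul_of_nonneg_right (norm_fderiv_le_of_lipschitz ℝ hf) (norm_nonneg _)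
  have key : ∀ ℓ : ℂ →L[ℝ] ℝ, ℓ (∫ z, (fderiv ℝ φ z v) • f z) = ℓ (- ∫ z, φ z • fderiv ℝ f z v) := by
    intro ℓ
    have hu : LipschitzWith (‖ℓ‖₊ * C) fun z => ℓ (f z) := ℓ.lipschitz.comp hf
    have h1 := LipschitzWith.integral_lineDeriv_mul_eq (μ := (volume : Measure ℂ)) hu hC' hc v
    rw [map_neg, ← ContinuousLinearMap.integral_comp_comm ℓ int1,
      ← ContinuousLinearMap.integral_comp_comm ℓ int2]
    have h2 : ∫ z, lineDeriv ℝ (fun z => ℓ (f z)) z v * φ z = ∫ z, ℓ (φ z • fderiv ℝ f z v) := by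
      apply integral_congr_ae
      filter_upwards [hf.ae_differentiableAt (μ := (volume : Measure ℂ))] with z hz
      have h3 : HasFDerivAt (fun z => ℓ (f z)) (ℓ.comp (fderiv ℝ f z)) z :=
        ℓ.hasFDerivAt.comp z hz.hasFDerivAt
      rw [h3.differentiableAt.lineDeriv_eq_fderiv, h3.fderiv, map_smul, smul_eq_mul, mul_comm]
      rfl
    have h3 : ∫ z, lineDeriv ℝ φ z (-v) * ℓ (f z) = -∫ z, ℓ ((fderiv ℝ φ z v) • f z) := by
      rw [← integral_neg]
      congr 1
      funext z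
      rw [((hφ.differentiable (by simp)) z).lineDeriv_eq_fderiv, map_neg, map_smul, smul_eq_mul]
      ring
    rw [h2, h3] at h1
    rw [h1, neg_neg]
  apply Complex.ext
  · exact key Complex.reCLM
  · exact key Complex.imCLM

lemma isQuasiconformal_qcMap : IsQuasiconformal Q91.QC.qcMap := by
  have hlip : LipschitzWith (Real.toNNReal 12) Q91.QC.qcMap :=
    LipschitzWith.of_dist_le' Q91.QC.nice_qcMap.lip
  refine ⟨Q91.QC.isHomeomorph_of_nice Q91.QC.nice_qcMap, fun A hA => ?_, fderiv ℝ Q91.QC.qcMap,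
    isWeakDiff_of_lipschitz hlip, fun A hA => ?_, 7, by norm_num, ?_⟩
  · have hfin : IsFiniteMeasure (volume.restrict A) := ⟨by simpa using hA.measure_lt_top⟩
    obtain ⟨B, hB⟩ := hA.exists_bound_of_continuousOn hlip.continuous.continuousOn
    refine MemLp.of_bound hlip.continuous.aestronglyMeasurable B ?_
    rw [ae_restrict_iff' hA.measurableSet]
    exact Eventually.of_forall hB
  · have hfin : IsFiniteMeasure (volume.restrict A) := ⟨by simpa using hA.measure_lt_top⟩
    refine MemLp.of_bound (measurable_fderiv ℝ _).aestronglyMeasurable 12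
      (Eventually.of_forall fun z => ?_)
    have := norm_fderiv_le_of_lipschitz ℝ hlip (x₀ := z)
    rwa [Real.coe_toNNReal _ (by norm_num)] at this
  · filter_upwards [Q91.QC.dilatation Q91.QC.nice_qcMap.aq] with z hz
    exact hz.2

/-- **Disproof of Q1** (with `n = 2`): there are a Lipschitz quasiconformal map `f` of the plane and
a set `E` with `dim_A E ≤ 2/5` and `dim_A f(E) ≥ 1/2`. -/
theorem result : ∃ (f : ℂ → ℂ) (E : Set ℂ), IsQuasiconformal f ∧ (∃ L : ℝ≥0, LipschitzWith L f) ∧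
    assouadDim E ≤ ENNReal.ofReal (2 / 5) ∧ ENNReal.ofReal (1 / 2) ≤ assouadDim (f '' E) ∧
    assouadDim E < assouadDim (f '' E) := by
  have h1 : assouadDim Q91.QC.E ≤ ENNReal.ofReal (2 / 5) := Q91.QC.dimA_E
  have h2 : ENNReal.ofReal (1 / 2) ≤ assouadDim (Q91.QC.qcMap '' Q91.QC.E) := Q91.QC.half_le
  refine ⟨Q91.QC.qcMap, Q91.QC.E, isQuasiconformal_qcMap,
    ⟨_, LipschitzWith.of_dist_le' Q91.QC.nice_qcMap.lip⟩, h1, h2, h1.trans_lt (lt_of_lt_of_le ?_ h2)⟩
  exact (ENNReal.ofReal_lt_ofReal_iff (by norm_num)).2 (by norm_num)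

end Pool.Agent.Results.MP_c78a2a_an.AssouadRaised
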